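import Pool.Agent.Helper49.TP.StM

/-! # Project TP, module P1: four-cycles with common neighbours -/

set_option autoImplicit false

namespace Pool.Agent.Helper64.TP

open Finset Pool.Agent.Helper49.TP Pool.Agent.Helper93.IA Pool.Agent.Helper38.IA

theorem hP1 : StP1 := by
  intro α β γ _ _ _ _ _ _ n δ A B C gA gB gC hn hα hβ hγ hδ hM
  have hn' : (0 : ℝ) < n := Nat.cast_pos.2 hn
  obtain ⟨T, hT⟩ : ∃ T : α → β → γ → ℝ, T = fun a b c =>
      if (a, b) ∈ A ∧ (b, c) ∈ B ∧ (c, a) ∈ C then |gA a b + gB b c + gC c a| else 0 := ⟨_, rfl⟩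
  have hT0 : ∀ a b c, 0 ≤ T a b c := by
    intro a b c
    rw [hT]
    show 0 ≤ if (a, b) ∈ A ∧ (b, c) ∈ B ∧ (c, a) ∈ C then |gA a b + gB b c + gC c a| else 0
    split_ifs
    · exact abs_nonneg _
    · exact le_rfl
  have hTv : ∀ a b c, (a, b) ∈ A → (b, c) ∈ B → (c, a) ∈ C →
      T a b c = |gA a b + gB b c + gC c a| := by
    intro a b c h1 h2 h3
    rw [hT]
    exact if_pos ⟨h1, h2, h3⟩
  have hST : ST A B C (fun a b c => gA a b + gB b c + gC c a) = ∑ a, ∑ b, ∑ c, T a b c := by
    rw [hT]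
    rfl
  -- the key inequality
  have key : ∀ a a' b b', 4 * δ * n * (if (a, b) ∈ A ∧ (a', b) ∈ A ∧ (a, b') ∈ A ∧ (a', b') ∈ A then
      |gA a b - gA a' b - gA a b' + gA a' b'| else 0) ≤
      ∑ c, T a b c + ∑ c, T a' b c + ∑ c, T a b' c + ∑ c, T a' b' c := by
    intro a a' b b'
    split_ifs with hA
    · obtain ⟨h1, h2, h3, h4⟩ := hA
      obtain ⟨F, hF⟩ : ∃ F, F = |gA a b - gA a' b - gA a b' + gA a' b'| := ⟨_, rfl⟩
      have hF0 : 0 ≤ F := by rw [hF]; exact abs_nonneg _
      obtain ⟨N, hN⟩ : ∃ N, N = univ.filter fun c =>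
        (c, a) ∈ C ∧ (c, a') ∈ C ∧ (b, c) ∈ B ∧ (b', c) ∈ B := ⟨_, rfl⟩
      have hsub : (univ : Finset γ) ⊆ N ∪ ((univ.filter fun c => (c, a) ∉ C) ∪
          (univ.filter fun c => (c, a') ∉ C) ∪ ((univ.filter fun c => (b, c) ∉ B) ∪
          (univ.filter fun c => (b', c) ∉ B))) := by
        intro c _
        rw [hN]
        simp only [mem_union, mem_filter, mem_univ, true_and]
        tauto
      have hcard : n ≤ N.card + (m2 C univ a + m2 C univ a' + (m1 B univ b + m1 B univ b')) := by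
        have e1 := card_le_card hsub
        rw [card_univ, hγ] at e1
        refine e1.trans ((card_union_le _ _).trans (Nat.add_le_add_left ?_ _))
        refine (card_union_le _ _).trans (Nat.add_le_add ?_ ?_)
        · exact card_union_le _ _
        · exact card_union_le _ _
      have hcard' : (n : ℝ) ≤ N.card + (m2 C univ a + m2 C univ a' +
          (m1 B univ b + m1 B univ b')) := by
        exact_mod_cast hcard
      have q1 := hM.2.2.2 a
      have q2 := hM.2.2.2 a'
      have q3 := hM.2.1.1 b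
      have q4 := hM.2.1.1 b'
      have hNc : 4 * δ * n ≤ N.card := by
        have : (1 / 4 - δ) * n = n / 4 - δ * n := by ring
        rw [this] at q1 q2 q3 q4
        linarith
      have hterm : ∀ c ∈ N, F ≤ T a b c + T a' b c + T a b' c + T a' b' c := by
        intro c hc
        rw [hN, mem_filter] at hc
        obtain ⟨-, c1, c2, c3, c4⟩ := hc
        rw [hTv a b c h1 c3 c1, hTv a' b c h2 c3 c2, hTv a b' c h3 c4 c1, hTv a' b' c h4 c4 c2, hF]
        have e : gA a b - gA a' b - gA a b' + gA a' b' =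
            (gA a b + gB b c + gC c a) - (gA a' b + gB b c + gC c a') -
            (gA a b' + gB b' c + gC c a) + (gA a' b' + gB b' c + gC c a') := by ring
        rw [e]
        calc |(gA a b + gB b c + gC c a) - (gA a' b + gB b c + gC c a') -
            (gA a b' + gB b' c + gC c a) + (gA a' b' + gB b' c + gC c a')| ≤
            |(gA a b + gB b c + gC c a) - (gA a' b + gB b c + gC c a') -
            (gA a b' + gB b' c + gC c a)| + |gA a' b' + gB b' c + gC c a'| := abs_add_le _ _
          _ ≤ |(gA a b + gB b c + gC c a) - (gA a' b + gB b c + gC c a')| +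
            |gA a b' + gB b' c + gC c a| + |gA a' b' + gB b' c + gC c a'| := by
              gcongr
              exact abs_sub _ _
          _ ≤ _ := by
              gcongr
              exact abs_sub _ _
      have hsum : (N.card : ℝ) * F ≤ ∑ c ∈ N, (T a b c + T a' b c + T a b' c + T a' b' c) := by
        rw [← nsmul_eq_mul]
        exact card_nsmul_le_sum N _ F hterm
      have hsum2 : ∑ c ∈ N, (T a b c + T a' b c + T a b' c + T a' b' c) ≤
          ∑ c, (T a b c + T a' b c + T a b' c + T a' b' c) := by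
        refine sum_le_sum_of_subset_of_nonneg (subset_univ _) fun c _ _ => ?_
        have t1 := hT0 a b c
        have t2 := hT0 a' b c
        have t3 := hT0 a b' c
        have t4 := hT0 a' b' c
        linarith
      rw [← hF, ← sum_add_distrib, ← sum_add_distrib, ← sum_add_distrib]
      exact (mul_le_mul_of_nonneg_right hNc hF0).trans (hsum.trans hsum2)
    · rw [mul_zero]
      have t1 : 0 ≤ ∑ c, T a b c := sum_nonneg fun c _ => hT0 _ _ _
      have t2 : 0 ≤ ∑ c, T a' b c := sum_nonneg fun c _ => hT0 _ _ _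
      have t3 : 0 ≤ ∑ c, T a b' c := sum_nonneg fun c _ => hT0 _ _ _
      have t4 : 0 ≤ ∑ c, T a' b' c := sum_nonneg fun c _ => hT0 _ _ _
      linarith
  have total : 4 * δ * n * Q4 A gA ≤ 4 * (n : ℝ) ^ 2 * ∑ a, ∑ b, ∑ c, T a b c := by
    have e1 : 4 * δ * n * Q4 A gA = ∑ a, ∑ a', ∑ b, ∑ b', 4 * δ * n *
        (if (a, b) ∈ A ∧ (a', b) ∈ A ∧ (a, b') ∈ A ∧ (a', b') ∈ A then
          |gA a b - gA a' b - gA a b' + gA a' b'| else 0) := by
      unfold Q4
      simp only [mul_sum]
    have e2 : ∑ a, ∑ a', ∑ b, ∑ b', (∑ c, T a b c + ∑ c, T a' b c + ∑ c, T a b' c +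
        ∑ c, T a' b' c) = 4 * (n : ℝ) ^ 2 * ∑ a, ∑ b, ∑ c, T a b c := by
      simp only [sum_add_distrib, sum_const, card_univ, hα, hβ, nsmul_eq_mul, ← mul_sum]
      ring
    rw [e1, ← e2]
    exact sum_le_sum fun a _ => sum_le_sum fun a' _ => sum_le_sum fun b _ =>
      sum_le_sum fun b' _ => key a a' b b'
  rw [hST]
  have h4 : 0 < 4 * δ * n := by positivity
  have e3 : 4 * δ * n * ((n : ℝ) / δ * ∑ a, ∑ b, ∑ c, T a b c) =
      4 * (n : ℝ) ^ 2 * ∑ a, ∑ b, ∑ c, T a b c := by
    field_simp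
  exact le_of_mul_le_mul_left (total.trans_eq e3.symm) h4

end Pool.Agent.Helper64.TP
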